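import Pool.Agent.R903.Chow

/-!
# Cones over hypersurfaces

`X` is a smooth hypersurface `F = 0` of degree `d` and dimension `n` in the projective space `B`,
and `Y` is the hypersurface `F(x) + y ^ d - z ^ d = 0` of dimension `n + 2`.
-/

set_option autoImplicit false

open CategoryTheory AlgebraicGeometry
open Pool.Agent.H914 Pool.Agent.H914.VarClass Pool.Agent.H914.VarClass.Obj
open Pool.Agent.R903

universe u v

namespace Pool.Agent.R655.HC

variable {k : Type u} [Field k] {𝒱 : VarClass k}

/-- `B` has the Chow groups of the projective space of dimension `m`, and `L` is the class of a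
hyperplane: `CH^j(B)` is spanned by `L ^ j`, and `L ^ m` has degree `1`. -/
structure IsProjectiveSpace (C : ChowTheory.{u, v} 𝒱) (m : ℕ) (B : 𝒱.Obj) (L : C.CH B) :
    Prop where
  dim_eq : B.dim = m
  gr_eq : ∀ j, C.gr B j = Submodule.span ℚ {L ^ j}
  deg_pow : C.deg B (L ^ m) = 1

/-- The varieties and morphisms in the geometry of the cones over a hypersurface `X` in `Y`, see
`ConeDiagram`. -/
structure ConeData {𝒱 : VarClass k} (d : ℕ) (X Y : 𝒱.Obj) where
  /-- the projective space of dimension `n + 1` -/
  B : 𝒱.Obj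
  /-- the inclusion of `X` -/
  ι : X ⟶ B
  /-- the projective line bundle over `X` -/
  P : 𝒱.Obj
  /-- the projection -/
  π : P ⟶ X
  /-- the section at infinity -/
  s : X ⟶ P
  /-- the maps onto the cones -/
  c : Fin d → (P ⟶ Y)
  /-- the blowing-up of `Y` in the vertices -/
  Y' : 𝒱.Obj
  /-- the blowing-down -/
  b : Y' ⟶ Y
  /-- the projection from the line that contains the vertices -/
  q : Y' ⟶ B

section data

variable {d : ℕ} {X Y : 𝒱.Obj} (D : ConeData d X Y) (C : ChowTheory.{u, v} 𝒱)

/-- Different cones meet transversally in `X`. -/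
def ConeData.Transversal : Prop :=
  ∀ e e', e ≠ e' → ∀ x, C.pull (D.c e') (C.push (D.c e) x) = C.push D.s (C.pull D.s x)

/-- The hyperplane section of `Y` restricts to `s(X)` on the cones, and to `h` on `X`. -/
def ConeData.Sections (h : C.CH X) (H : C.CH Y) : Prop :=
  (∀ e, C.pull (D.s ≫ D.c e) H = h) ∧ ∀ e, C.pull (D.c e) H = C.push D.s 1

/-- The cones: the properties of `π`, `s` and `c e`, see `ConeDiagram`. -/
structure ConeData.IsCones (n : ℕ) (h : C.CH X) (H : C.CH Y) : Prop where
  dim_P : D.P.dim = n + 1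
  section_eq : D.s ≫ D.π = 𝟙 X
  sections : D.Sections C h H
  transversal : D.Transversal C

/-- `b_* q^* L ^ j = H ^ j` for `j ≤ n + 1`. -/
def ConeData.Blow (n : ℕ) (H : C.CH Y) (L : C.CH D.B) : Prop :=
  ∀ j, j ≤ n + 1 → C.push D.b (C.pull D.q (L ^ j)) = H ^ j

/-- `b_* q^* ι_* a` is the sum of the cones over `a`. -/
def ConeData.Fibres : Prop :=
  ∀ a, C.push D.b (C.pull D.q (C.push D.ι a)) = ∑ e, C.push (D.c e) (C.pull D.π a)

/-- The projection from the line that contains the vertices: the properties of `ι`, `b`, `q`,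
see `ConeDiagram`. -/
structure ConeData.IsProjection (n : ℕ) (h : C.CH X) (H : C.CH Y) (L : C.CH D.B) : Prop where
  projective : IsProjectiveSpace C (n + 1) D.B L
  pull_ι : C.pull D.ι L = h
  push_ι : C.push D.ι 1 = (d : ℚ) • L
  blow : D.Blow C n H L
  fibres : D.Fibres C

end data

/-- The geometry of the cones over the smooth hypersurface `X = {F = 0}` of degree `d` and dimension
`n` in the projective space `B`, in the hypersurface `Y = {F(x) + y ^ d - z ^ d = 0}` of dimension
`n + 2`; here `h` and `H` are the classes of the hyperplane sections. For each of the `d` roots of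
unity `e` the variety `Y` contains the cone `C_e = {F = 0, y = e z}` over `X` with vertex `v_e`, the
point `x = 0, y = e, z = 1`.

* `ι : X → B` is the inclusion, `L` the class of a hyperplane of `B`; the class of `X` is `d L`;
* `π : P → X` is the `ℙ¹`-bundle `ℙ(O ⊕ O(1))`, with the section at infinity `s : X → P`;
* `c e : P → Y` contracts the other section: `P` is the blowing-up of `C_e` in the vertex;
* all the maps `c e ∘ s` are the inclusion of `X = {y = z = 0}` in `Y`;
* the hyperplane section `z = 0` of `Y` meets `C_e` in `s(X)` (`Sections`);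
* for `e ≠ e'` the cones `C_e` and `C_e'` meet transversally, along `X` (`Transversal`);
* `b : Y' → Y` is the blowing-up of the `d` vertices, and `q : Y' → B` extends the projection
  `(x : y : z) ↦ x`; `q^* L = b^* H - E`, with `E` the exceptional divisor (`Blow`); the fibre of
  the flat morphism `q` over a point `x` of `X` is the union of the lines that join `x` with the
  vertices (`Fibres`). -/
structure ConeDiagram (C : ChowTheory.{u, v} 𝒱) (d n : ℕ) (X Y : 𝒱.Obj) (h : C.CH X)
    (H : C.CH Y) extends ConeData d X Y where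
  /-- the class of a hyperplane -/
  L : C.CH B
  isCones : toConeData.IsCones C n h H
  isProjection : toConeData.IsProjection C n h H L

/-- A family of varieties with divisor classes which contains with each hypersurface `X` of dimension
`n` a hypersurface `Y` of dimension `n + 2` that contains the cones over `X`. For example: `𝒱` is
the class of all smooth projective varieties over an algebraically closed field of characteristic
zero, and `mem n X h` says that `X` is a smooth hypersurface of degree `d` in the projective space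
of dimension `n + 1`, and that `h` is the class of a hyperplane section, `n ≥ 1`. -/
structure HypersurfaceFamily (C : ChowTheory.{u, v} 𝒱) (d : ℕ) where
  /-- `X` is a smooth hypersurface of dimension `n`, and `h` is the class of a hyperplane section -/
  mem : ℕ → (X : 𝒱.Obj) → C.CH X → Prop
  dim_eq : ∀ {n : ℕ} {X : 𝒱.Obj} {h : C.CH X}, mem n X h → X.dim = n
  cones : ∀ {n : ℕ} {X : 𝒱.Obj} {h : C.CH X}, mem n X h →
    ∃ (Y : 𝒱.Obj) (H : C.CH Y), mem (n + 2) Y H ∧ Nonempty (ConeDiagram C d n X Y h H)

/-- The classes of codimension `i` and of degree zero: `deg(a h^{n - i}) = 0`. -/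
noncomputable def Prim (C : ChowTheory.{u, v} 𝒱) (n i : ℕ) (X : 𝒱.Obj) (h : C.CH X) :
    Submodule ℚ (C.CH X) :=
  C.gr X i ⊓ LinearMap.ker (C.deg X ∘ₗ LinearMap.mulRight ℚ (h ^ (n - i)))

/-- `CH^i(X) = ℚ[h^i]` for all hypersurfaces `X` of dimension `n` of the family. -/
def HypersurfaceFamily.TrivialAt {C : ChowTheory.{u, v} 𝒱} {d : ℕ} (ℋ : HypersurfaceFamily C d)
    (n i : ℕ) : Prop :=
  ∀ (X : 𝒱.Obj) (h : C.CH X), ℋ.mem n X h → C.gr X i = Submodule.span ℚ {h ^ i}

/-- The dimension of `CH^i(X)`. -/
noncomputable def chRank (C : ChowTheory.{u, v} 𝒱) (X : 𝒱.Obj) (i : ℕ) : Cardinal.{v} :=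
  Module.rank ℚ (C.gr X i)

/-- The dimension of the space of the classes of codimension `i` and of degree zero. -/
noncomputable def primRank (C : ChowTheory.{u, v} 𝒱) (n i : ℕ) (X : 𝒱.Obj) (h : C.CH X) :
    Cardinal.{v} :=
  Module.rank ℚ (Prim C n i X h)

namespace HypersurfaceFamily

variable {C : ChowTheory.{u, v} 𝒱} {d : ℕ} (ℋ : HypersurfaceFamily C d)

/-- The conjecture for the hypersurfaces of the family. -/
def Conj : Prop := ∀ n i : ℕ, 2 * i < n → ℋ.TrivialAt n i

/-- For all `Y` in the family of dimension `m` and all `j < m / 2` the dimension of `CH^j(Y)` is at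
most `b`. -/
def BoundedAt (m b : ℕ) : Prop :=
  ∀ (Y : 𝒱.Obj) (H : C.CH Y), ℋ.mem m Y H → ∀ j : ℕ, 2 * j < m → chRank C Y j ≤ (b : Cardinal)

/-- Some `Y` in the family of dimension `m` has `dim CH^j(Y) ≥ b`. -/
def LargeAt (m j b : ℕ) : Prop :=
  ∃ (Y : 𝒱.Obj) (H : C.CH Y), ℋ.mem m Y H ∧ (b : Cardinal) ≤ chRank C Y j

/-- Some `Y` in the family of dimension `m` has classes of codimension `j` and degree zero of rank
at least `r`. -/
def LargePrimAt (m j : ℕ) (r : Cardinal.{v}) : Prop :=
  ∃ (Y : 𝒱.Obj) (H : C.CH Y), ℋ.mem m Y H ∧ r ≤ primRank C m j Y H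

end HypersurfaceFamily

/-- `B(m) / (d - 1) ^ (m / 2)` tends to `0`. -/
def IsSmall (d : ℕ) (B : ℕ → ℕ) : Prop :=
  Filter.Tendsto (fun m : ℕ => (B m : ℝ) / Real.sqrt ((d : ℝ) - 1) ^ m) Filter.atTop (nhds 0)

end Pool.Agent.R655.HC
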