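import Pool.Agent.R655.HC.Main

set_option autoImplicit false

open CategoryTheory AlgebraicGeometry Filter Topology
open Pool.Agent.H914 Pool.Agent.H914.VarClass Pool.Agent.H914.VarClass.Obj
open Pool.Agent.R903

universe u v

namespace Pool.Agent.R655.HC

variable {k : Type u} [Field k] {𝒱 : VarClass k} {C : ChowTheory.{u, v} 𝒱}

section one

variable {d n : ℕ} {X Y : 𝒱.Obj} {h : C.CH X} {H : C.CH Y}

namespace ConeDiagram

variable (D : ConeDiagram C d n X Y h H)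

include D

/-- `CH^i(X)` is at least the sum of the primitive part and a line. -/
lemma rank_prim_add_one_le (hd : 1 ≤ d) {i : ℕ} (hi : i ≤ n) :
    Module.rank ℚ (Prim C n i X h) + 1 ≤ Module.rank ℚ (C.gr X i) := by
  let f : (Prim C n i X h × ℚ) →ₗ[ℚ] C.gr X i :=
    LinearMap.coprod (Submodule.inclusion inf_le_left)
      (LinearMap.toSpanSingleton ℚ (C.gr X i) ⟨h ^ i, D.pow_mem i⟩)
  have hf : Function.Injective f := by
    rw [injective_iff_map_eq_zero]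
    rintro ⟨a, q⟩ ha
    have h1 : (a : C.CH X) + q • h ^ i = 0 := by
      exact congrArg (Subtype.val) ha
    have h2 : C.deg X ((a : C.CH X) * h ^ (n - i)) = 0 := a.2.2
    have h3 := congrArg (fun x => C.deg X (x * h ^ (n - i))) h1
    simp only [add_mul, map_add, zero_mul, map_zero, smul_mul_assoc, map_smul, h2, zero_add] at h3
    rw [← pow_add, show i + (n - i) = n by omega, D.deg_pow, smul_eq_mul] at h3
    have hd0 : (d : ℚ) ≠ 0 := by
      have : 0 < (d : ℚ) := by exact_mod_cast hd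
      exact this.ne'
    have hq : q = 0 := (mul_eq_zero.1 h3).resolve_right hd0
    subst hq
    rw [zero_smul, add_zero] at h1
    ext
    · exact h1
    · rfl
  have h1 := LinearMap.rank_le_of_injective f hf
  rw [rank_prod] at h1
  simpa using h1

lemma exists_prim_ne_zero (hd : 1 ≤ d) {i : ℕ} (hi : i ≤ n)
    (hne : C.gr X i ≠ Submodule.span ℚ {h ^ i}) : 1 ≤ Module.rank ℚ (Prim C n i X h) := by
  rw [Cardinal.one_le_iff_ne_zero]
  intro h0
  apply hne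
  have hbot : Prim C n i X h = ⊥ := by
    rw [← Submodule.rank_eq_zero (R := ℚ)]
    exact h0
  have hd0 : (d : ℚ) ≠ 0 := by
    have : 0 < (d : ℚ) := by exact_mod_cast hd
    exact this.ne'
  apply le_antisymm
  · intro a ha
    rw [Submodule.mem_span_singleton]
    refine ⟨C.deg X (a * h ^ (n - i)) / d, ?_⟩
    have h1 : a - (C.deg X (a * h ^ (n - i)) / d) • h ^ i ∈ Prim C n i X h := by
      refine ⟨sub_mem ha (Submodule.smul_mem _ _ (D.pow_mem i)), ?_⟩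
      show C.deg X ((a - (C.deg X (a * h ^ (n - i)) / d) • h ^ i) * h ^ (n - i)) = 0
      rw [sub_mul, smul_mul_assoc, ← pow_add, show i + (n - i) = n by omega, map_sub, map_smul,
        D.deg_pow, smul_eq_mul, div_mul_cancel₀ _ hd0, sub_self]
    rw [hbot, Submodule.mem_bot, sub_eq_zero] at h1
    exact h1.symm
  · rw [Submodule.span_singleton_le_iff_mem]
    exact D.pow_mem i

end ConeDiagram

end one

namespace HypersurfaceFamily

variable {d : ℕ} (ℋ : HypersurfaceFamily C d)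

theorem trivialAt_of_add_two (hd : 2 ≤ d) {n i : ℕ} (h1 : ℋ.TrivialAt (n + 2) (i + 1)) :
    ℋ.TrivialAt n i := by
  intro X h hX
  obtain ⟨Y, H, hY, ⟨D⟩⟩ := ℋ.cones hX
  exact D.descend hd (ℋ.dim_eq hY) (h1 Y H hY)

theorem trivialAt_of_add (hd : 2 ≤ d) {n i : ℕ} (m : ℕ)
    (h1 : ℋ.TrivialAt (n + 2 * m) (i + m)) : ℋ.TrivialAt n i := by
  induction m with
  | zero => exact h1
  | succ m ih => exact ih (ℋ.trivialAt_of_add_two hd h1)

theorem growth {n i : ℕ} (hi : i ≤ n) {X : 𝒱.Obj} {h : C.CH X} (hX : ℋ.mem n X h) (m : ℕ) :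
    ∃ (Y : 𝒱.Obj) (H : C.CH Y), ℋ.mem (n + 2 * m) Y H ∧
      ((d - 1 : ℕ) : Cardinal) ^ m * Module.rank ℚ (Prim C n i X h) ≤
        Module.rank ℚ (Prim C (n + 2 * m) (i + m) Y H) := by
  induction m with
  | zero => exact ⟨X, h, hX, by simp⟩
  | succ m ih =>
    obtain ⟨Y, H, hY, hr⟩ := ih
    obtain ⟨Z, K, hZ, ⟨D⟩⟩ := ℋ.cones hY
    refine ⟨Z, K, hZ, ?_⟩
    rcases Nat.eq_zero_or_pos d with h0 | h0
    · subst h0
      simp
    have h1 := D.rank_le (ℋ.dim_eq hY) (ℋ.dim_eq hZ) (i := i + m) (by omega)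
      (m := d - 1) (by omega)
    calc ((d - 1 : ℕ) : Cardinal) ^ (m + 1) * Module.rank ℚ (Prim C n i X h)
        = ((d - 1 : ℕ) : Cardinal) *
          (((d - 1 : ℕ) : Cardinal) ^ m * Module.rank ℚ (Prim C n i X h)) := by
            rw [pow_succ']; ring
      _ ≤ ((d - 1 : ℕ) : Cardinal) * Module.rank ℚ (Prim C (n + 2 * m) (i + m) Y H) :=
            mul_le_mul_right hr _
      _ ≤ _ := h1

/-- A counterexample gives counterexamples of exponential size. -/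
theorem growth_of_ne (hd : 1 ≤ d) {n i : ℕ} (hi : i ≤ n) {X : 𝒱.Obj} {h : C.CH X}
    (hX : ℋ.mem n X h) (hne : C.gr X i ≠ Submodule.span ℚ {h ^ i}) (m : ℕ) :
    ∃ (Y : 𝒱.Obj) (H : C.CH Y), ℋ.mem (n + 2 * m) Y H ∧
      (((d - 1) ^ m + 1 : ℕ) : Cardinal) ≤ Module.rank ℚ (C.gr Y (i + m)) := by
  obtain ⟨Y₁, H₁, hY₁, ⟨D₁⟩⟩ := ℋ.cones hX
  have h1 := D₁.exists_prim_ne_zero hd hi hne
  obtain ⟨Y, H, hY, hr⟩ := ℋ.growth hi hX m
  obtain ⟨Z, K, hZ, ⟨D⟩⟩ := ℋ.cones hY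
  refine ⟨Y, H, hY, le_trans ?_ (D.rank_prim_add_one_le hd (i := i + m) (by omega))⟩
  push_cast
  gcongr
  calc ((d - 1 : ℕ) : Cardinal) ^ m = ((d - 1 : ℕ) : Cardinal) ^ m * 1 := (mul_one _).symm
    _ ≤ _ := mul_le_mul_right h1 _
    _ ≤ _ := hr

theorem conj_iff (hd : 2 ≤ d) : ℋ.Conj ↔ ∀ n : ℕ, ∃ m : ℕ, ∀ (Y : 𝒱.Obj) (H : C.CH Y),
    ℋ.mem (n + 2 * m) Y H → ∀ j : ℕ, 2 * j < n + 2 * m →
      Module.rank ℚ (C.gr Y j) ≤ (((d - 1) ^ m : ℕ) : Cardinal) := by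
  constructor
  · intro hC n
    refine ⟨0, fun Y H hY j hj => ?_⟩
    rw [hC _ j hj Y H hY, pow_zero, Nat.cast_one]
    exact rank_span_le _ |>.trans (by simp)
  · intro hB n i hi X h hX
    by_contra hne
    obtain ⟨m, hm⟩ := hB n
    obtain ⟨Y, H, hY, hr⟩ := ℋ.growth_of_ne (by omega) (by omega) hX hne m
    have h1 := hr.trans (hm Y H hY (i + m) (by omega))
    rw [Nat.cast_le] at h1
    omega

/-- Subexponential growth of the dimensions implies the conjecture. -/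
theorem conj_of_growth (hd : 2 ≤ d) (B : ℕ → ℕ)
    (hB : Tendsto (fun m : ℕ => (B m : ℝ) / Real.sqrt ((d : ℝ) - 1) ^ m) atTop (𝓝 0))
    (h1 : ∀ (m : ℕ) (Y : 𝒱.Obj) (H : C.CH Y), ℋ.mem m Y H → ∀ j : ℕ, 2 * j < m →
      Module.rank ℚ (C.gr Y j) ≤ (B m : Cardinal)) : ℋ.Conj := by
  rw [ℋ.conj_iff hd]
  intro n
  set w : ℝ := Real.sqrt ((d : ℝ) - 1) with hw
  have hd1 : (1 : ℝ) ≤ (d : ℝ) - 1 := by
    have : (2 : ℝ) ≤ d := by exact_mod_cast hd
    linarith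
  have hw0 : 0 < w := Real.sqrt_pos.2 (by linarith)
  have hw2 : w ^ 2 = (d : ℝ) - 1 := Real.sq_sqrt (by linarith)
  have h2 : ∀ᶠ m : ℕ in atTop, (B m : ℝ) / w ^ m < (w ^ n)⁻¹ :=
    hB.eventually (gt_mem_nhds (by positivity))
  obtain ⟨N, hN⟩ := eventually_atTop.1 h2
  refine ⟨N, fun Y H hY j hj => (h1 _ Y H hY j hj).trans ?_⟩
  rw [Nat.cast_le]
  have h3 := hN (n + 2 * N) (by omega)
  rw [div_lt_iff₀ (by positivity), pow_add, ← mul_assoc, inv_mul_cancel₀ (by positivity), one_mul,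
    pow_mul, hw2] at h3
  have h4 : (B (n + 2 * N) : ℝ) < (((d - 1) ^ N : ℕ) : ℝ) := by
    rw [Nat.cast_pow, Nat.cast_sub (by omega), Nat.cast_one]
    exact h3
  exact_mod_cast h4.le

end HypersurfaceFamily

end Pool.Agent.R655.HC
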