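import Pool.Agent.R655.HC.Defs

set_option autoImplicit false

open CategoryTheory AlgebraicGeometry
open Pool.Agent.H914 Pool.Agent.H914.VarClass Pool.Agent.H914.VarClass.Obj
open Pool.Agent.R903

universe u v

namespace Pool.Agent.R655.HC

variable {k : Type u} [Field k] {𝒱 : VarClass k} {C : ChowTheory.{u, v} 𝒱}

section basic

variable {X Y : 𝒱.Obj}

lemma push_mul (f : X ⟶ Y) (a : C.CH X) (b : C.CH Y) :
    C.push f (a * C.pull f b) = C.push f a * b := (C.isPullPush f).push_mul a b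

lemma push_push {Z : 𝒱.Obj} (f : X ⟶ Y) (g : Y ⟶ Z) (a : C.CH X) :
    C.push g (C.push f a) = C.push (f ≫ g) a := by
  rw [C.pushFunctorial.push_comp]; rfl

lemma pull_pull {Z : 𝒱.Obj} (f : X ⟶ Y) (g : Y ⟶ Z) (a : C.CH Z) :
    C.pull f (C.pull g a) = C.pull (f ≫ g) a := by
  rw [C.pullFunctorial.pull_comp]; rfl

lemma push_id (a : C.CH X) : C.push (𝟙 X) a = a := by
  rw [C.pushFunctorial.push_id]; rfl

lemma pull_id (a : C.CH X) : C.pull (𝟙 X) a = a := by
  rw [C.pullFunctorial.pull_id]; rfl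

lemma lift_fst_snd (A T : 𝒱.Obj) : lift (fst A T) (snd A T) = 𝟙 (A.prod T) := by
  apply SmVar.hom_ext
  apply Limits.pullback.hom_ext
  · exact (Limits.pullback.lift_fst _ _ _).trans (Category.id_comp _).symm
  · exact (Limits.pullback.lift_snd _ _ _).trans (Category.id_comp _).symm

/-- The push-forward preserves degrees. -/
lemma deg_push (T : 𝒱.Obj) [Nontrivial (C.CH T)] (f : X ⟶ Y) (a : C.CH X) :
    C.deg Y (C.push f a) = C.deg X a := by
  have h1 : C.pull (fst Y T) (C.push f a) =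
      C.push (lift (fst X T ≫ f) (snd X T)) (C.pull (fst X T) a) := by
    refine C.baseChange f (lift (fst X T ≫ f) (snd X T)) (fst X T) (fst Y T) (snd Y T)
      (lift_fst _ _) ?_ ?_ a
    · rw [lift_fst_snd]; infer_instance
    · rw [lift_snd, lift_fst_snd]; infer_instance
  have h2 := C.degreeFormula Y T (C.push f a)
  rw [h1, push_push, lift_snd, C.degreeFormula X T a] at h2
  exact (FaithfulSMul.algebraMap_injective ℚ (C.CH T) h2).symm

end basic

section diagram

variable {d n : ℕ} {X Y : 𝒱.Obj} {h : C.CH X} {H : C.CH Y}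

lemma IsProjectiveSpace.nontrivial {m : ℕ} {B : 𝒱.Obj} {L : C.CH B}
    (hB : IsProjectiveSpace C m B L) : Nontrivial (C.CH B) := by
  refine ⟨⟨L ^ m, 0, fun h0 => ?_⟩⟩
  have := hB.deg_pow
  rw [h0, map_zero] at this
  exact zero_ne_one this

namespace ConeDiagram

variable (D : ConeDiagram C d n X Y h H)

include D

lemma projective : IsProjectiveSpace C (n + 1) D.B D.L := D.isProjection.projective

lemma pull_ι : C.pull D.ι D.L = h := D.isProjection.pull_ι

lemma push_ι : C.push D.ι 1 = (d : ℚ) • D.L := D.isProjection.push_ι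

lemma blow (j : ℕ) (hj : j ≤ n + 1) : C.push D.b (C.pull D.q (D.L ^ j)) = H ^ j :=
  D.isProjection.blow j hj

lemma fibres (a : C.CH X) :
    C.push D.b (C.pull D.q (C.push D.ι a)) = ∑ e, C.push (D.c e) (C.pull D.π a) :=
  D.isProjection.fibres a

lemma dim_P : D.P.dim = n + 1 := D.isCones.dim_P

lemma section_eq : D.s ≫ D.π = 𝟙 X := D.isCones.section_eq

lemma pull_sc (e : Fin d) : C.pull (D.s ≫ D.c e) H = h := D.isCones.sections.1 e

lemma pull_c (e : Fin d) : C.pull (D.c e) H = C.push D.s 1 := D.isCones.sections.2 e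

lemma transversal (e e' : Fin d) (he : e ≠ e') (x : C.CH D.P) :
    C.pull (D.c e') (C.push (D.c e) x) = C.push D.s (C.pull D.s x) :=
  D.isCones.transversal e e' he x

lemma deg_push' {Z W : 𝒱.Obj} (f : Z ⟶ W) (a : C.CH Z) : C.deg W (C.push f a) = C.deg Z a :=
  haveI := D.projective.nontrivial
  deg_push D.B f a

/-- the class of the section at infinity -/
noncomputable def ξ : C.CH D.P := C.push D.s 1

lemma pull_c' (e : Fin d) : C.pull (D.c e) H = D.ξ := D.pull_c e

lemma pull_s_xi (e : Fin d) : C.pull D.s D.ξ = h := by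
  rw [← D.pull_c' e, pull_pull, D.pull_sc e]

lemma pull_s_pi (a : C.CH X) : C.pull D.s (C.pull D.π a) = a := by
  rw [pull_pull, D.section_eq, pull_id]

lemma push_pi_s (a : C.CH X) : C.push D.π (C.push D.s a) = a := by
  rw [push_push, D.section_eq, push_id]

lemma push_s (a : C.CH X) : C.push D.s a = D.ξ * C.pull D.π a := by
  have h1 := push_mul D.s (1 : C.CH X) (C.pull D.π a)
  rw [one_mul, D.pull_s_pi] at h1
  exact h1

lemma xi_sq (e : Fin d) : D.ξ * D.ξ = D.ξ * C.pull D.π h := by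
  have h1 := push_mul D.s (1 : C.CH X) D.ξ
  rw [one_mul, D.pull_s_xi e, D.push_s] at h1
  exact h1.symm

lemma xi_pow (e : Fin d) (j : ℕ) : D.ξ ^ (j + 1) = D.ξ * C.pull D.π (h ^ j) := by
  induction j with
  | zero => simp
  | succ j ih =>
    rw [pow_succ, ih, mul_assoc, mul_comm (C.pull D.π (h ^ j)), ← mul_assoc, D.xi_sq e, mul_assoc,
      ← map_mul, pow_succ']

lemma push_xi_pow (e : Fin d) (j : ℕ) : C.push D.π (D.ξ ^ (j + 1)) = h ^ j := by
  rw [D.xi_pow e, ← D.push_s, D.push_pi_s]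

/-- the class of the cone over `a` -/
noncomputable def cone (e : Fin d) : C.CH X →ₗ[ℚ] C.CH Y :=
  C.push (D.c e) ∘ₗ (C.pull D.π).toLinearMap

/-- the section of the cones -/
noncomputable def cut (e : Fin d) : C.CH Y →ₗ[ℚ] C.CH X :=
  C.push D.π ∘ₗ (C.pull (D.c e)).toLinearMap

lemma cone_apply (e : Fin d) (a : C.CH X) : D.cone e a = C.push (D.c e) (C.pull D.π a) := rfl

lemma cut_apply (e : Fin d) (a : C.CH Y) : D.cut e a = C.push D.π (C.pull (D.c e) a) := rfl

lemma cut_cone {e e' : Fin d} (he : e ≠ e') (a : C.CH X) : D.cut e' (D.cone e a) = a := by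
  rw [cut_apply, cone_apply, D.transversal e e' he, D.pull_s_pi, D.push_pi_s]

lemma cut_pow (e : Fin d) (j : ℕ) : D.cut e (H ^ (j + 1)) = h ^ j := by
  rw [cut_apply, map_pow, D.pull_c', D.push_xi_pow e]

lemma cone_mem (hY : Y.dim = n + 2) (e : Fin d) {i : ℕ} {a : C.CH X}
    (ha : a ∈ C.gr X i) : D.cone e a ∈ C.gr Y (i + 1) := by
  refine (C.isPullPush (D.c e)).push_mem ((C.isPullPush D.π).pull_mem ha) ?_
  rw [hY, D.dim_P]; ring

lemma deg_cone (e : Fin d) (j : ℕ) (a : C.CH X) :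
    C.deg Y (D.cone e a * H ^ (j + 1)) = C.deg X (a * h ^ j) := by
  rw [cone_apply, ← push_mul, D.deg_push', map_pow, D.pull_c', D.xi_pow e, ← mul_assoc,
    mul_comm _ D.ξ, mul_assoc, ← map_mul, ← D.push_s, D.deg_push']

lemma push_ι_mem (hX : X.dim = n) {i : ℕ} (hi : i ≤ n) {a : C.CH X} (ha : a ∈ C.gr X i) :
    C.push D.ι a = C.deg X (a * h ^ (n - i)) • D.L ^ (i + 1) := by
  have h1 : C.push D.ι a ∈ C.gr D.B (i + 1) := by
    refine (C.isPullPush D.ι).push_mem ha ?_
    rw [hX, D.projective.dim_eq]; ring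
  rw [D.projective.gr_eq, Submodule.mem_span_singleton] at h1
  obtain ⟨m, hm⟩ := h1
  have h2 : C.deg D.B (C.push D.ι a * D.L ^ (n - i)) = C.deg X (a * h ^ (n - i)) := by
    rw [← push_mul, D.deg_push', map_pow, D.pull_ι]
  rw [← hm, smul_mul_assoc, ← pow_add, show i + 1 + (n - i) = n + 1 by omega, map_smul,
    D.projective.deg_pow, smul_eq_mul, mul_one] at h2
  rw [← hm, h2]

/-- The sum of the cones over a class is a multiple of a power of the hyperplane class. -/
lemma sum_cone (hX : X.dim = n) {i : ℕ} (hi : i ≤ n) {a : C.CH X} (ha : a ∈ C.gr X i) :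
    ∑ e, D.cone e a = C.deg X (a * h ^ (n - i)) • H ^ (i + 1) := by
  have h1 := D.fibres a
  rw [D.push_ι_mem hX hi ha, map_smul, map_smul, D.blow (i + 1) (by omega)] at h1
  exact h1.symm

lemma deg_pow : C.deg X (h ^ n) = d := by
  have h1 : C.deg D.B (C.push D.ι 1 * D.L ^ n) = C.deg X (h ^ n) := by
    rw [← push_mul, D.deg_push', map_pow, D.pull_ι, one_mul]
  rw [← h1, D.push_ι, smul_mul_assoc, ← pow_succ', map_smul, D.projective.deg_pow, smul_eq_mul,
    mul_one]

lemma mem_gr : h ∈ C.gr X 1 := by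
  rw [← D.pull_ι]
  refine (C.isPullPush D.ι).pull_mem ?_
  rw [D.projective.gr_eq, pow_one]
  exact Submodule.mem_span_singleton_self _

lemma one_mem : (1 : C.CH X) ∈ C.gr X 0 := by
  have h1 : (1 : C.CH D.B) ∈ C.gr D.B 0 := by
    rw [D.projective.gr_eq, pow_zero]
    exact Submodule.mem_span_singleton_self _
  have h2 := (C.isPullPush D.ι).pull_mem h1
  rwa [map_one] at h2

lemma pow_mem (i : ℕ) : h ^ i ∈ C.gr X i := by
  induction i with
  | zero => rw [pow_zero]; exact D.one_mem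
  | succ i ih => rw [pow_succ]; exact (C.isChowRing X).mul_mem ih D.mem_gr

/-- the cones over primitive classes are primitive -/
lemma cone_mem_prim (hY : Y.dim = n + 2) (e : Fin d) {i : ℕ} (hi : i ≤ n)
    {a : C.CH X} (ha : a ∈ Prim C n i X h) : D.cone e a ∈ Prim C (n + 2) (i + 1) Y H := by
  refine ⟨D.cone_mem hY e ha.1, ?_⟩
  show C.deg Y (D.cone e a * H ^ (n + 2 - (i + 1))) = 0
  rw [show n + 2 - (i + 1) = (n - i) + 1 by omega, D.deg_cone]
  exact ha.2

lemma sum_cone_prim (hX : X.dim = n) {i : ℕ} (hi : i ≤ n) {a : C.CH X}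
    (ha : a ∈ Prim C n i X h) : ∑ e, D.cone e a = 0 := by
  have h1 : C.deg X (a * h ^ (n - i)) = 0 := ha.2
  rw [D.sum_cone hX hi ha.1, h1, zero_smul]

lemma cut_cone_self (hX : X.dim = n) {i : ℕ} (hi : i ≤ n) (e : Fin d) {a : C.CH X}
    (ha : a ∈ Prim C n i X h) : D.cut e (D.cone e a) = a - (d : ℚ) • a := by
  have h1 : D.cut e (∑ e', D.cone e' a) = 0 := by
    rw [D.sum_cone_prim hX hi ha, map_zero]
  rw [map_sum, ← Finset.add_sum_erase _ _ (Finset.mem_univ e)] at h1
  rw [Finset.sum_congr rfl (fun e' he' => D.cut_cone (Finset.ne_of_mem_erase he') a)] at h1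
  rw [Finset.sum_const, Finset.card_erase_of_mem (Finset.mem_univ e), Finset.card_univ,
    Fintype.card_fin] at h1
  have hd : 1 ≤ d := Fin.pos e
  have h2 : D.cut e (D.cone e a) = - ((d - 1) • a) := eq_neg_of_add_eq_zero_left h1
  rw [h2, ← Nat.cast_smul_eq_nsmul ℚ, Nat.cast_sub hd, Nat.cast_one, sub_smul, one_smul]
  abel

/-- **Descent.** -/
theorem descend (hd : 2 ≤ d) (hY : Y.dim = n + 2) {i : ℕ}
    (hH : C.gr Y (i + 1) = Submodule.span ℚ {H ^ (i + 1)}) :
    C.gr X i = Submodule.span ℚ {h ^ i} := by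
  apply le_antisymm
  · intro a ha
    have h1 := D.cone_mem hY (⟨0, by omega⟩ : Fin d) ha
    rw [hH, Submodule.mem_span_singleton] at h1
    obtain ⟨m, hm⟩ := h1
    have h2 := congrArg (D.cut (⟨1, by omega⟩ : Fin d)) hm
    rw [D.cut_cone (by simp), map_smul, D.cut_pow] at h2
    exact Submodule.mem_span_singleton.2 ⟨m, h2⟩
  · rw [Submodule.span_singleton_le_iff_mem]
    exact D.pow_mem i

/-- the sum of cones with `d - 1` different vertices -/
noncomputable def cones (hY : Y.dim = n + 2) {i : ℕ} (hi : i ≤ n) {m : ℕ}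
    (hd : m + 1 = d) : (Fin m → Prim C n i X h) →ₗ[ℚ] Prim C (n + 2) (i + 1) Y H :=
  LinearMap.lsum ℚ (fun _ => Prim C n i X h) ℚ (fun e : Fin m =>
    (D.cone (Fin.cast hd e.succ)).restrict (fun _ ha => D.cone_mem_prim hY _ hi ha))

lemma cones_apply (hY : Y.dim = n + 2) {i : ℕ} (hi : i ≤ n) {m : ℕ}
    (hd : m + 1 = d) (a : Fin m → Prim C n i X h) :
    (D.cones hY hi hd a : C.CH Y) = ∑ e : Fin m, D.cone (Fin.cast hd e.succ) (a e) := by
  unfold cones
  rw [LinearMap.lsum_apply, LinearMap.sum_apply, AddSubmonoidClass.coe_finsetSum]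
  rfl

lemma cones_injective (hX : X.dim = n) (hY : Y.dim = n + 2) {i : ℕ} (hi : i ≤ n) {m : ℕ}
    (hd : m + 1 = d) : Function.Injective (D.cones hY hi hd) := by
  rw [injective_iff_map_eq_zero]
  intro a ha
  have h0 : ∑ e : Fin m, D.cone (Fin.cast hd e.succ) (a e : C.CH X) = 0 := by
    rw [← D.cones_apply hY hi hd, ha]; rfl
  have h1 : ∑ e : Fin m, (a e : C.CH X) = 0 := by
    have := congrArg (D.cut (Fin.cast hd 0)) h0
    rw [map_sum, map_zero] at this
    rw [← this]
    refine Finset.sum_congr rfl fun e _ => (D.cut_cone ?_ _).symm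
    intro h
    exact Fin.succ_ne_zero e (Fin.cast_injective hd h)
  funext e
  apply Subtype.ext
  show (a e : C.CH X) = 0
  have h2 := congrArg (D.cut (Fin.cast hd e.succ)) h0
  rw [map_sum, map_zero, ← Finset.add_sum_erase _ _ (Finset.mem_univ e),
    D.cut_cone_self hX hi _ (a e).2] at h2
  have h3 : ∑ e' ∈ Finset.univ.erase e, D.cut (Fin.cast hd e.succ)
      (D.cone (Fin.cast hd e'.succ) (a e' : C.CH X)) =
      ∑ e' ∈ Finset.univ.erase e, (a e' : C.CH X) := by
    refine Finset.sum_congr rfl fun e' he' => D.cut_cone ?_ _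
    intro h
    exact Finset.ne_of_mem_erase he' (Fin.succ_injective _ (Fin.cast_injective hd h))
  rw [h3] at h2
  have h4 : (a e : C.CH X) + ∑ e' ∈ Finset.univ.erase e, (a e' : C.CH X) = 0 := by
    exact (Finset.add_sum_erase Finset.univ (fun e => (a e : C.CH X)) (Finset.mem_univ e)).trans h1
  have h5 : (d : ℚ) • (a e : C.CH X) = 0 := by
    have : (a e : C.CH X) - (d : ℚ) • (a e : C.CH X) +
        ∑ e' ∈ Finset.univ.erase e, (a e' : C.CH X) =
        ((a e : C.CH X) + ∑ e' ∈ Finset.univ.erase e, (a e' : C.CH X)) -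
          (d : ℚ) • (a e : C.CH X) := by abel
    rw [this, h4, zero_sub, neg_eq_zero] at h2
    exact h2
  have hd0 : (d : ℚ) ≠ 0 := by
    rw [← hd]; positivity
  exact (smul_eq_zero.1 h5).resolve_left hd0

/-- **Growth.** -/
theorem rank_le (hX : X.dim = n) (hY : Y.dim = n + 2) {i : ℕ} (hi : i ≤ n) {m : ℕ}
    (hd : m + 1 = d) :
    (m : Cardinal) * Module.rank ℚ (Prim C n i X h) ≤
      Module.rank ℚ (Prim C (n + 2) (i + 1) Y H) := by
  have h1 := LinearMap.rank_le_of_injective _ (D.cones_injective hX hY hi hd)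
  rw [rank_fun_eq_lift_mul, Fintype.card_fin] at h1
  simpa using h1

end ConeDiagram

end diagram

end Pool.Agent.R655.HC
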